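import Pool.Agent.Helper74.DG3.Chain
import Pool.Agent.Helper65.DG.Grid

/-!
# Slope 1: positions of the vertices of the frame

`FD`: the frame of a grid in adapted coordinates.  Only the lines number `0, 1, 2` and `M - 1` are
long; for the other `c` the vertex `U σ c` is the upper end of a separator, and these upper ends form
a path which starts in `D (!σ) 1`.
-/

set_option autoImplicit false

namespace Pool.Agent.Helper74.DG3

open Pool.Agent.Helper18.RAC
open Pool.Agent.Helper82.DG (NE SE NW SW Rect axis_x axis_y ne_sw sw_sw negX_draw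
  lines_cross quad_NE quad_SE quad_SW quad_NW common_NE)

variable {V : Type*}

/-- the long lines -/
def Lg (M c : ℕ) : Prop := c < 3 ∨ c + 1 = M

/-- the frame of a grid in adapted coordinates -/
structure FD (H : SimpleGraph V) (X Y : V → ℝ) (E F a b : ℝ) (xc yc : Bool → V)
    (P U : Bool → ℕ → V) (C : Bool → ℕ → Bool → V) (D : Bool → ℕ → V) (M : ℕ) : Prop where
  hM : 6 ≤ M
  hd : ADraw H X Y E F
  hk : KN H X Y a b (xc true) (yc true) (xc false) (yc false)
  hs : H.Adj (yc true) (yc false)
  hU : ∀ σ c, c < M → Lg M c → NE X Y (U σ c)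
  hP0 : ∀ j, j < 2 * M → SE X Y b (P false j)
  hC0 : ∀ j ε, j + 1 < 2 * M → SE X Y b (C false j ε)
  hP1 : ∀ j, j < 2 * M → NW X Y a (P true j)
  hC1 : ∀ j ε, j + 1 < 2 * M → NW X Y a (C true j ε)
  yp : ∀ σ j, j < 2 * M → H.Adj (yc σ) (P σ j)
  xu : ∀ σ c, c < M → Lg M c → H.Adj (xc σ) (U σ c)
  xp : ∀ σ, H.Adj (xc (!σ)) (P σ (2 * M - 1))
  up : ∀ σ c, c < M → H.Adj (U σ c) (P σ (2 * c))
  pd : ∀ σ c, c < M → H.Adj (P σ (2 * c + 1)) (D σ c)
  dd : ∀ σ c, c + 1 < M → H.Adj (D σ c) (D σ (c + 1))
  d0 : ∀ σ, D σ 0 = D (!σ) 0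
  pp : ∀ σ j, j + 1 < 2 * M → H.Adj (P σ j) (P σ (j + 1))
  pc : ∀ σ j ε, j + 1 < 2 * M → H.Adj (P σ j) (C σ j ε)
  pc' : ∀ σ j ε, j + 1 < 2 * M → H.Adj (P σ (j + 1)) (C σ j ε)
  cc : ∀ σ j, j + 1 < 2 * M → H.Adj (C σ j false) (C σ j true)
  dr : ∀ σ ε, H.Adj (D σ (M - 1)) (U (!σ) (cond ε 1 0))
  ud : ∀ σ, H.Adj (D (!σ) 1) (U σ 3)
  uw : ∀ σ c, 3 ≤ c → c + 3 ≤ M → H.Adj (U σ c) (U σ (c + 1))
  injP : ∀ σ i j, i < 2 * M → j < 2 * M → P σ i = P σ j → i = j
  nCP : ∀ σ j ε m, j + 1 < 2 * M → m < 2 * M → C σ j ε ≠ P σ m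
  nDP : ∀ σ c τ j, c < M → j < 2 * M → D σ c ≠ P τ j
  nUP : ∀ σ c τ j, c < M → j < 2 * M → U σ c ≠ P τ j
  nDU : ∀ σ c τ j, c < M → j < M → D σ c ≠ U τ j
  nUU : ∀ c r, c < M → r < M → U false c ≠ U true r
  injU : ∀ σ i j, i < M → j < M → U σ i = U σ j → i = j
  nUX : ∀ σ c τ, c < M → U σ c ≠ xc τ
  nUY : ∀ σ c τ, c < M → U σ c ≠ yc τ
  nDX : ∀ σ c τ, c < M → D σ c ≠ xc τ
  nDY : ∀ σ c τ, c < M → D σ c ≠ yc τ

namespace FD

variable {H : SimpleGraph V} {X Y : V → ℝ} {E F a b : ℝ} {xc yc : Bool → V}
    {P U : Bool → ℕ → V} {C : Bool → ℕ → Bool → V} {D : Bool → ℕ → V} {M : ℕ}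
    {c r i j : ℕ} {p p' : V}

theorem swap (h : FD H X Y E F a b xc yc P U C D M) :
    FD H Y X F E b a (fun σ => xc (!σ)) (fun σ => yc (!σ)) (fun σ => P (!σ)) (fun σ => U (!σ))
      (fun σ => C (!σ)) (fun σ => D (!σ)) M where
  hM := h.hM
  hd := h.hd.swap
  hk := h.hk.swap
  hs := h.hs.symm
  hU := fun σ c hc hl => by
    obtain ⟨h1, h2, h3⟩ := h.hU (!σ) c hc hl
    rw [add_comm] at h3
    exact ⟨h2, h1, h3⟩
  hP0 := fun j hj => by
    obtain ⟨h1, h2, h3⟩ := h.hP1 j hj
    exact ⟨h1, h2, h3⟩
  hC0 := fun j ε hj => by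
    obtain ⟨h1, h2, h3⟩ := h.hC1 j ε hj
    exact ⟨h1, h2, h3⟩
  hP1 := fun j hj => by
    obtain ⟨h1, h2, h3⟩ := h.hP0 j hj
    exact ⟨h1, h2, h3⟩
  hC1 := fun j ε hj => by
    obtain ⟨h1, h2, h3⟩ := h.hC0 j ε hj
    exact ⟨h1, h2, h3⟩
  yp := fun σ => h.yp (!σ)
  xu := fun σ => h.xu (!σ)
  xp := fun σ => h.xp (!σ)
  up := fun σ => h.up (!σ)
  pd := fun σ => h.pd (!σ)
  dd := fun σ => h.dd (!σ)
  d0 := fun σ => h.d0 (!σ)
  pp := fun σ => h.pp (!σ)
  pc := fun σ => h.pc (!σ)
  pc' := fun σ => h.pc' (!σ)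
  cc := fun σ => h.cc (!σ)
  dr := fun σ => h.dr (!σ)
  ud := fun σ => h.ud (!σ)
  uw := fun σ => h.uw (!σ)
  injP := fun σ => h.injP (!σ)
  nCP := fun σ => h.nCP (!σ)
  nDP := fun σ c τ => h.nDP (!σ) c (!τ)
  nUP := fun σ c τ => h.nUP (!σ) c (!τ)
  nDU := fun σ c τ => h.nDU (!σ) c (!τ)
  nUU := fun c r hc hr => (h.nUU r c hr hc).symm
  injU := fun σ => h.injU (!σ)
  nUX := fun σ c τ => h.nUX (!σ) c (!τ)
  nUY := fun σ c τ => h.nUY (!σ) c (!τ)
  nDX := fun σ c τ => h.nDX (!σ) c (!τ)
  nDY := fun σ c τ => h.nDY (!σ) c (!τ)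

/-! ### The first row -/

theorem row_NE (h : FD H X Y E F a b xc yc P U C D M) (h0 : NE X Y (D false 0)) :
    ∀ c, c < M → NE X Y (D false c) := by
  intro c
  induction c with
  | zero =>
    intro _
    exact h0
  | succ c ih =>
    intro hc
    have hM := h.hM
    have ih' := ih (by omega)
    have hu := h.nDX false (c + 1) true hc
    have hw := h.nDX false (c + 1) false hc
    have hw' := h.nDY false (c + 1) false hc
    have ad := h.dd false c hc
    rcases quad_NE h.hd h.hk ad ih' with e | e | ⟨e1, e2⟩ | ⟨e1, e2⟩ | ⟨e1, e2⟩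
    · exact absurd e hu
    · exact absurd e hw
    · rcases quad_SE h.hd h.hk h.hs (h.pd false (c + 1) hc) (h.hP0 _ (by omega)) with
        f | f | ⟨f1, f2⟩ | ⟨f1, f2⟩ | ⟨f1, f2⟩
      · exact absurd f hu
      · exact absurd f hw'
      · linarith
      · exact f2
      · linarith [f2.1]
    · -- straight below `D c 0`
      exfalso
      have hP := h.hP0 (2 * c + 1) (by omega)
      have hX : X (D false c) = X (P false (2 * c + 1)) := by
        rcases quad_SE h.hd h.hk h.hs (h.pd false c (by omega)) hP with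
          f | f | ⟨f1, f2⟩ | ⟨f1, f2⟩ | ⟨f1, f2⟩
        · exact absurd f (h.nDX false c true (by omega))
        · exact absurd f (h.nDY false c false (by omega))
        · linarith [ih'.2.1]
        · exact f1
        · linarith [f2.1, ih'.1]
      have := axis_y h.hd ad (h.pd false c (by omega)).symm e1 hX.symm
        (Or.inr ⟨by linarith [e2.2.1, ih'.2.1], by linarith [hP.2.1, ih'.2.1]⟩)
      exact h.nDP false (c + 1) false (2 * c + 1) hc (by omega) this
    · exfalso
      rcases quad_SE h.hd h.hk h.hs (h.pd false (c + 1) hc) (h.hP0 _ (by omega)) with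
        f | f | ⟨f1, f2⟩ | ⟨f1, f2⟩ | ⟨f1, f2⟩
      · exact absurd f hu
      · exact absurd f hw'
      · linarith [e2.1]
      · linarith [f2.1, e2.2.1]
      · linarith [f2.2.1, e2.1]

theorem row_SW (h : FD H X Y E F a b xc yc P U C D M) (h0 : SW X Y a b (D false 0)) :
    ∀ c, c < M → SW X Y a b (D false c) := by
  intro c
  induction c with
  | zero =>
    intro _
    exact h0
  | succ c ih =>
    intro hc
    have hM := h.hM
    have ih' := ih (by omega)
    have hu := h.nDX false (c + 1) true hc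
    have hu' := h.nDY false (c + 1) true hc
    have hw' := h.nDY false (c + 1) false hc
    have ad := h.dd false c hc
    rcases quad_SW h.hd h.hk h.hs ad ih' with e | e | ⟨e1, e2⟩ | ⟨e1, e2⟩ | ⟨e1, e2⟩
    · exact absurd e hu'
    · exact absurd e hw'
    · rcases quad_SE h.hd h.hk h.hs (h.pd false (c + 1) hc) (h.hP0 _ (by omega)) with
        f | f | ⟨f1, f2⟩ | ⟨f1, f2⟩ | ⟨f1, f2⟩
      · exact absurd f hu
      · exact absurd f hw'
      · linarith
      · linarith [f2.1]
      · exact f2
    · exfalso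
      rcases quad_SE h.hd h.hk h.hs (h.pd false (c + 1) hc) (h.hP0 _ (by omega)) with
        f | f | ⟨f1, f2⟩ | ⟨f1, f2⟩ | ⟨f1, f2⟩
      · exact absurd f hu
      · exact absurd f hw'
      · linarith [e2.1]
      · linarith [f2.1, e2.2.1]
      · linarith [f2.2.1, e2.1]
    · -- straight to the right of `D c 0`
      exfalso
      have hP := h.hP0 (2 * c + 1) (by omega)
      have hY : Y (D false c) = Y (P false (2 * c + 1)) := by
        rcases quad_SE h.hd h.hk h.hs (h.pd false c (by omega)) hP with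
          f | f | ⟨f1, f2⟩ | ⟨f1, f2⟩ | ⟨f1, f2⟩
        · exact absurd f (h.nDX false c true (by omega))
        · exact absurd f (h.nDY false c false (by omega))
        · linarith [ih'.1]
        · linarith [f2.1, ih'.1]
        · exact f1
      have := axis_x h.hd ad (h.pd false c (by omega)).symm e1 hY.symm
        (Or.inl ⟨by linarith [e2.1, ih'.1], by linarith [hP.1, ih'.1]⟩)
      exact h.nDP false (c + 1) false (2 * c + 1) hc (by omega) this

theorem D_NE0 (h : FD H X Y E F a b xc yc P U C D M) : NE X Y (D false 0) := by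
  have hM := h.hM
  have hu := h.nDX false 0 true (by omega)
  have hu' := h.nDY false 0 true (by omega)
  have hw := h.nDX false 0 false (by omega)
  have hw' := h.nDY false 0 false (by omega)
  rcases quad_SE h.hd h.hk h.hs (h.pd false 0 (by omega)) (h.hP0 _ (by omega)) with
    f | f | ⟨f1, f2⟩ | ⟨f1, f2⟩ | ⟨f1, f2⟩
  · exact absurd f hu
  · exact absurd f hw'
  · exfalso
    have ad := h.pd true 0 (by omega)
    rw [h.d0 true] at ad
    rcases quad_NW h.hd h.hk h.hs ad (h.hP1 _ (by omega)) with
      e | e | ⟨e1, e2⟩ | ⟨e1, e2⟩ | ⟨e1, e2⟩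
    · exact hw e
    · exact hu' e
    · simp only [Bool.not_true] at e1
      linarith
    · simp only [Bool.not_true] at e2
      linarith [e2.2.1]
    · simp only [Bool.not_true] at e2
      linarith [e2.1]
  · exact f2
  · exfalso
    have h1 := h.row_SW f2 (M - 1) (by omega)
    have h2 : NE X Y (D false (M - 1)) := by
      have hne : U true 0 ≠ U true 1 := by
        intro he
        have := h.injU true 0 1 (by omega) (by omega) he
        omega
      rcases common_NE h.hd h.hk h.hs (h.hU true 0 (by omega) (Or.inl (by omega)))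
        (h.hU true 1 (by omega) (Or.inl (by omega))) hne
        (h.dr false false) (h.dr false true) with e | e | e
      · exact absurd e (h.nDX false (M - 1) true (by omega))
      · exact absurd e (h.nDX false (M - 1) false (by omega))
      · exact e
    linarith [h1.1, h2.1]

theorem D_NE (h : FD H X Y E F a b xc yc P U C D M) (σ : Bool) (hc : c < M) :
    NE X Y (D σ c) := by
  cases σ with
  | false => exact h.row_NE h.D_NE0 c hc
  | true =>
    refine ne_sw (h.swap.row_NE (ne_sw ?_) c hc)
    change NE X Y (D (!false) 0)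
    rw [← h.d0 false]
    exact h.D_NE0

theorem X_D (h : FD H X Y E F a b xc yc P U C D M) (hc : c < M) :
    X (D false c) = X (P false (2 * c + 1)) := by
  have hM := h.hM
  have hD := h.D_NE false hc
  rcases quad_SE h.hd h.hk h.hs (h.pd false c hc) (h.hP0 _ (by omega)) with
    f | f | ⟨f1, f2⟩ | ⟨f1, f2⟩ | ⟨f1, f2⟩
  · exact absurd f (h.nDX false c true hc)
  · exact absurd f (h.nDY false c false hc)
  · linarith [hD.2.1]
  · exact f1
  · linarith [f2.1, hD.1]

theorem Y_D (h : FD H X Y E F a b xc yc P U C D M) (hr : r < M) :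
    Y (D true r) = Y (P true (2 * r + 1)) := h.swap.X_D hr

theorem X_U_of (h : FD H X Y E F a b xc yc P U C D M) (hc : c < M) (hU : NE X Y (U false c)) :
    X (U false c) = X (P false (2 * c)) := by
  rcases quad_SE h.hd h.hk h.hs (h.up false c hc).symm (h.hP0 _ (by omega)) with
    f | f | ⟨f1, f2⟩ | ⟨f1, f2⟩ | ⟨f1, f2⟩
  · exact absurd f (h.nUX false c true hc)
  · exact absurd f (h.nUY false c false hc)
  · linarith [hU.2.1]
  · exact f1
  · linarith [f2.1, hU.1]

/-! ### The order of the vertices with an anchor -/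

/-- the indices with an anchor which is known to be above -/
def Jd (M j : ℕ) : Prop := j % 2 = 1 ∨ Lg M (j / 2)

theorem X_lt_part (h : FD H X Y E F a b xc yc P U C D M) {J : ℕ → Prop}
    (hJ : ∀ c, c < M → J (2 * c) → NE X Y (U false c)) (hJ1 : J (2 * M - 1))
    (hij : i < j) (hj : j < 2 * M) (hi' : J i) (hj' : J j) :
    X (P false i) < X (P false j) := by
  have hM := h.hM
  have hb := h.hk.b_pos
  refine chain_part (negX_draw h.hd.swap).swap (w := yc false) (u := xc true) (h := b)
    (e := 1) (n := 2 * M) (P := fun j => P false j)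
    (P' := fun j => if j % 2 = 0 then U false (j / 2) else D false (j / 2))
    (C := fun j ε => C false j ε) (J := J) h.hk.Xw' ?_ h.hk.Xu ?_ ?_ ?_ ?_ ?_ ?_ ?_ ?_ ?_ ?_ ?_
    hJ1 ?_ ?_ i j hij hj hi' hj'
  · change -Y _ = b
    rw [h.hk.Yw']
    ring
  · change -Y _ = 0
    rw [h.hk.Yu]
    ring
  · intro j hj
    obtain ⟨h1, h2, h3⟩ := h.hP0 j hj
    refine ⟨h1, ?_, ?_, ?_⟩
    · by_contra h4
      rw [not_lt] at h4
      nlinarith
    · change 0 < -Y _
      linarith
    · change -Y _ < b
      nlinarith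
  · intro j ε hj
    obtain ⟨h1, h2, h3⟩ := h.hC0 j ε hj
    refine ⟨h1, ?_, ?_⟩
    · change 0 < -Y _
      linarith
    · change -Y _ < b
      nlinarith
  · intro j hj hJj
    by_cases he : j % 2 = 0
    · obtain ⟨c, rfl⟩ : ∃ c, j = 2 * c := ⟨j / 2, by omega⟩
      have hcM : c < M := by omega
      have e1 : 2 * c / 2 = c := by omega
      simp only [if_pos he, e1]
      have hU := hJ c hcM hJj
      exact ⟨h.X_U_of hcM hU, by linarith [hU.2.1]⟩
    · obtain ⟨c, rfl⟩ : ∃ c, j = 2 * c + 1 := ⟨j / 2, by omega⟩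
      have hcM : c < M := by omega
      have e1 : (2 * c + 1) / 2 = c := by omega
      simp only [if_neg he, e1]
      have hD := h.D_NE false hcM
      exact ⟨h.X_D hcM, by linarith [hD.2.1]⟩
  · intro j hj
    exact h.yp false j hj
  · intro j hj _
    by_cases he : j % 2 = 0
    · obtain ⟨c, rfl⟩ : ∃ c, j = 2 * c := ⟨j / 2, by omega⟩
      have e1 : 2 * c / 2 = c := by omega
      simp only [if_pos he, e1]
      exact (h.up false c (by omega)).symm
    · obtain ⟨c, rfl⟩ : ∃ c, j = 2 * c + 1 := ⟨j / 2, by omega⟩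
      have e1 : (2 * c + 1) / 2 = c := by omega
      simp only [if_neg he, e1]
      exact h.pd false c (by omega)
  · intro j hj
    exact h.pp false j hj
  · intro j ε hj
    exact h.pc false j ε hj
  · intro j ε hj
    exact h.pc' false j ε hj
  · intro j hj
    exact h.cc false j hj
  · exact h.xp false
  · intro i hi j hj he
    exact h.injP false i j hi hj he
  · intro j ε m hj hm he
    exact h.nCP false j ε m hj hm he

theorem X_lt_J (h : FD H X Y E F a b xc yc P U C D M) (hij : i < j) (hj : j < 2 * M)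
    (hi' : Jd M i) (hj' : Jd M j) : X (P false i) < X (P false j) := by
  have hM := h.hM
  refine h.X_lt_part (J := Jd M) ?_ (Or.inl (by omega)) hij hj hi' hj'
  intro c hc hJ
  refine h.hU false c hc ?_
  rcases hJ with h1 | h1
  · omega
  · have e1 : 2 * c / 2 = c := by omega
    rw [e1] at h1
    exact h1

/-- the long edges cross -/
theorem cross (h : FD H X Y E F a b xc yc P U C D M) (hc : c < M) (hr : r < M) (lc : Lg M c)
    (lr : Lg M r) : X (U false c) < X (U true r) ∧ Y (U true r) < Y (U false c) := by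
  have hU := h.hU false c hc lc
  have gU := h.hU true r hr lr
  obtain ⟨h1, h2, h3⟩ := hU
  obtain ⟨g1, g2, g3⟩ := gU
  have hB := h.hP0 (2 * c) (by omega)
  have hL := h.hP1 (2 * r) (by omega)
  exact lines_cross h.hd (w := xc false) (u := xc true) (h := 1) (e := 1)
    (B := P false (2 * c)) (L := P true (2 * r)) h.hk.Xw h.hk.Yw h.hk.Xu
    h.hk.Yu ⟨h1, by linarith, h2, by linarith⟩ ⟨g1, by linarith, g2, by linarith⟩
    ⟨(h.X_U_of hc ⟨h1, h2, h3⟩).symm, hB.2.1⟩
    ⟨(h.swap.X_U_of (c := r) hr (ne_sw (h.hU true r hr lr))).symm, hL.2.1⟩ (h.xu false c hc lc)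
    (h.up false c hc) (h.xu true r hr lr) (h.up true r hr) (h.nUU c r hc hr)

theorem Y_U_of (h : FD H X Y E F a b xc yc P U C D M) (hr : r < M) (hU : NE X Y (U true r)) :
    Y (U true r) = Y (P true (2 * r)) := h.swap.X_U_of hr (ne_sw hU)

theorem Y_lt_J (h : FD H X Y E F a b xc yc P U C D M) (hij : i < j) (hj : j < 2 * M)
    (hi' : Jd M i) (hj' : Jd M j) : Y (P true i) < Y (P true j) :=
  h.swap.X_lt_J hij hj hi' hj'

/-- a rectangle between two vertical and two horizontal lines -/
theorem rect_mk (h : FD H X Y E F a b xc yc P U C D M) {c c' r r' : ℕ} (hc : c < M) (hc' : c' < M)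
    (hr : r < M) (hr' : r' < M) (uc : NE X Y (U false c)) (uc' : NE X Y (U false c'))
    (ur : NE X Y (U true r)) (ur' : NE X Y (U true r'))
    (hx : X (P false (2 * c)) < X (P false (2 * c')))
    (hy : Y (P true (2 * r)) < Y (P true (2 * r')))
    (h1 : Y (P true (2 * r')) < Y (U false c)) (h2 : Y (P true (2 * r')) < Y (U false c'))
    (h3 : X (P false (2 * c')) < X (U true r)) (h4 : X (P false (2 * c')) < X (U true r')) :
    Rect H X Y (X (P false (2 * c))) (X (P false (2 * c'))) (Y (P true (2 * r)))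
      (Y (P true (2 * r'))) where
  hx := hx
  hy := hy
  l := by
    have g1 := h.hP0 (2 * c) (by omega)
    have g2 := h.hP1 (2 * r) (by omega)
    exact ⟨_, _, (h.up false c hc).symm, rfl, h.X_U_of hc uc, by linarith [g1.2.1, g2.1], h1⟩
  r := by
    have g1 := h.hP0 (2 * c') (by omega)
    have g2 := h.hP1 (2 * r) (by omega)
    exact ⟨_, _, (h.up false c' hc').symm, rfl, h.X_U_of hc' uc', by linarith [g1.2.1, g2.1], h2⟩
  b := by
    have g1 := h.hP1 (2 * r) (by omega)
    have g2 := h.hP0 (2 * c) (by omega)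
    exact ⟨_, _, (h.up true r hr).symm, rfl, h.Y_U_of hr ur, by linarith [g1.2.1, g2.1], h3⟩
  t := by
    have g1 := h.hP1 (2 * r') (by omega)
    have g2 := h.hP0 (2 * c) (by omega)
    exact ⟨_, _, (h.up true r' hr').symm, rfl, h.Y_U_of hr' ur', by linarith [g1.2.1, g2.1], h4⟩

theorem jd_long {c : ℕ} (lc : Lg M c) : Jd M (2 * c) := by
  right
  have e1 : 2 * c / 2 = c := by omega
  rw [e1]
  exact lc

/-- a rectangle between long lines -/
theorem rect_long (h : FD H X Y E F a b xc yc P U C D M) {c c' r r' : ℕ} (hcc : c < c')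
    (hc' : c' < M) (hrr : r < r') (hr' : r' < M) (lc : Lg M c) (lc' : Lg M c') (lr : Lg M r)
    (lr' : Lg M r') :
    Rect H X Y (X (P false (2 * c))) (X (P false (2 * c'))) (Y (P true (2 * r)))
      (Y (P true (2 * r'))) := by
  have hc : c < M := by omega
  have hr : r < M := by omega
  have e1 := h.Y_U_of hr (h.hU true r hr lr)
  have e2 := h.Y_U_of hr' (h.hU true r' hr' lr')
  have e3 := h.X_U_of hc' (h.hU false c' hc' lc')
  refine h.rect_mk hc hc' hr hr' (h.hU false c hc lc) (h.hU false c' hc' lc') (h.hU true r hr lr)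
    (h.hU true r' hr' lr') (h.X_lt_J (by omega) (by omega) (jd_long lc) (jd_long lc'))
    (h.Y_lt_J (by omega) (by omega) (jd_long lr) (jd_long lr')) ?_ ?_ ?_ ?_
  · rw [← e2]
    exact (h.cross hc hr' lc lr').2
  · rw [← e2]
    exact (h.cross hc' hr' lc' lr').2
  · rw [← e3]
    exact (h.cross hc' hr lc' lr).1
  · rw [← e3]
    exact (h.cross hc' hr' lc' lr').1

theorem lg_small {c : ℕ} (hc : c < 3) : Lg M c := Or.inl hc

theorem lg_last (h : FD H X Y E F a b xc yc P U C D M) : Lg M (M - 1) := by
  have := h.hM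
  exact Or.inr (by omega)

theorem X_D1 (h : FD H X Y E F a b xc yc P U C D M) : X (D true 1) = X (P false 1) := by
  have hM := h.hM
  have e1 : X (D true 0) = X (P false 1) := by
    rw [h.d0 true]
    exact h.X_D (c := 0) (by omega)
  have e2 : Y (D true 0) = Y (P true 1) := h.Y_D (r := 0) (by omega)
  have e3 : Y (D true 1) = Y (P true 3) := h.Y_D (r := 1) (by omega)
  have x1 := h.X_lt_J (i := 0) (j := 1) (by omega) (by omega)
    (jd_long (c := 0) (lg_small (by omega))) (Or.inl (by omega))
  have x2 := h.X_lt_J (i := 1) (j := 2) (by omega) (by omega) (Or.inl (by omega))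
    (jd_long (c := 1) (lg_small (by omega)))
  have y1 := h.Y_lt_J (i := 0) (j := 1) (by omega) (by omega)
    (jd_long (c := 0) (lg_small (by omega))) (Or.inl (by omega))
  have y2 := h.Y_lt_J (i := 1) (j := 2) (by omega) (by omega) (Or.inl (by omega))
    (jd_long (c := 1) (lg_small (by omega)))
  have y3 := h.Y_lt_J (i := 2) (j := 3) (by omega) (by omega)
    (jd_long (c := 1) (lg_small (by omega))) (Or.inl (by omega))
  have hr := h.rect_long (c := 0) (c' := 1) (r := 0) (r' := 1) (by omega) (by omega) (by omega)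
    (by omega) (lg_small (by omega)) (lg_small (by omega)) (lg_small (by omega))
    (lg_small (by omega))
  have ad : H.Adj (D true 0) (D true 1) := h.dd true 0 (by omega)
  simp only [Nat.mul_zero, Nat.mul_one] at hr
  rcases hr.through h.hd ad (s := 0) le_rfl zero_le_one (by linarith) (by linarith) (by linarith)
    (by linarith) with g | g | g
  · linarith [g.2.2.2]
  · rw [g]
    exact e1
  · linarith

theorem U_NE_succ (h : FD H X Y E F a b xc yc P U C D M) {q : V} (hc : c < M)
    (ad : H.Adj q (U false c)) (hq : NE X Y q) {q' : V} (aq : H.Adj q q') (hX : X q' = X q)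
    (hY : Y q' < Y q) (hne : U false c ≠ q') : NE X Y (U false c) := by
  have hu := h.nUX false c true hc
  have hw := h.nUX false c false hc
  have hw' := h.nUY false c false hc
  rcases quad_NE h.hd h.hk ad hq with e | e | ⟨e1, e2⟩ | ⟨e1, e2⟩ | ⟨e1, e2⟩
  · exact absurd e hu
  · exact absurd e hw
  · rcases quad_SE h.hd h.hk h.hs (h.up false c hc).symm (h.hP0 _ (by omega)) with
      f | f | ⟨f1, f2⟩ | ⟨f1, f2⟩ | ⟨f1, f2⟩
    · exact absurd f hu
    · exact absurd f hw'
    · linarith
    · exact f2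
    · linarith [f2.1]
  · exact absurd (axis_y h.hd ad aq e1 hX (Or.inr ⟨by linarith [e2.2.1, hq.2.1], hY⟩)) hne
  · exfalso
    rcases quad_SE h.hd h.hk h.hs (h.up false c hc).symm (h.hP0 _ (by omega)) with
      f | f | ⟨f1, f2⟩ | ⟨f1, f2⟩ | ⟨f1, f2⟩
    · exact absurd f hu
    · exact absurd f hw'
    · linarith [e2.1]
    · linarith [f2.1, e2.2.1]
    · linarith [f2.2.1, e2.1]

theorem U_NE_short (h : FD H X Y E F a b xc yc P U C D M) :
    ∀ c, 3 ≤ c → c + 2 ≤ M → NE X Y (U false c) := by
  have hM := h.hM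
  intro c hc
  induction c, hc using Nat.le_induction with
  | base =>
    intro _
    have e2 : Y (D true 0) = Y (P true 1) := h.Y_D (r := 0) (by omega)
    have e3 : Y (D true 1) = Y (P true 3) := h.Y_D (r := 1) (by omega)
    have y2 := h.Y_lt_J (i := 1) (j := 3) (by omega) (by omega) (Or.inl (by omega))
      (Or.inl (by omega))
    refine h.U_NE_succ (q := D true 1) (q' := D true 0) (by omega) (h.ud false)
      (h.D_NE true (by omega)) (h.dd true 0 (by omega)).symm ?_ ?_
      (h.nDU true 0 false 3 (by omega) (by omega)).symm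
    · rw [h.X_D1, h.d0 true]
      exact h.X_D (c := 0) (by omega)
    · linarith
  | succ c hc ih =>
    intro hc2
    have ih' := ih (by omega)
    have hP := h.hP0 (2 * c) (by omega)
    refine h.U_NE_succ (q := U false c) (q' := P false (2 * c)) (by omega)
      (h.uw false c hc (by omega)) ih' (h.up false c (by omega)) (h.X_U_of (by omega) ih').symm ?_
      (h.nUP false (c + 1) false (2 * c) (by omega) (by omega))
    linarith [ih'.2.1, hP.2.1]

theorem U_NE0 (h : FD H X Y E F a b xc yc P U C D M) (hc : c < M) : NE X Y (U false c) := by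
  by_cases hl : Lg M c
  · exact h.hU false c hc hl
  · unfold Lg at hl
    push Not at hl
    exact h.U_NE_short c hl.1 (by omega)

/-- all the vertices `U σ c` lie in the cell `NE` -/
theorem U_NE (h : FD H X Y E F a b xc yc P U C D M) (σ : Bool) (hc : c < M) : NE X Y (U σ c) := by
  cases σ with
  | false => exact h.U_NE0 hc
  | true => exact ne_sw (h.swap.U_NE0 hc)

theorem X_U (h : FD H X Y E F a b xc yc P U C D M) (hc : c < M) :
    X (U false c) = X (P false (2 * c)) := h.X_U_of hc (h.U_NE false hc)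

theorem Y_U (h : FD H X Y E F a b xc yc P U C D M) (hr : r < M) :
    Y (U true r) = Y (P true (2 * r)) := h.swap.X_U hr

theorem X_lt (h : FD H X Y E F a b xc yc P U C D M) (hij : i < j) (hj : j < 2 * M) :
    X (P false i) < X (P false j) :=
  h.X_lt_part (J := fun _ => True) (fun _ hc _ => h.U_NE false hc) trivial hij hj trivial trivial

theorem Y_lt (h : FD H X Y E F a b xc yc P U C D M) (hij : i < j) (hj : j < 2 * M) :
    Y (P true i) < Y (P true j) := h.swap.X_lt hij hj

theorem X_le (h : FD H X Y E F a b xc yc P U C D M) (hij : i ≤ j) (hj : j < 2 * M) :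
    X (P false i) ≤ X (P false j) := by
  rcases hij.eq_or_lt with rfl | hlt
  · exact le_rfl
  · exact (h.X_lt hlt hj).le

theorem Y_le (h : FD H X Y E F a b xc yc P U C D M) (hij : i ≤ j) (hj : j < 2 * M) :
    Y (P true i) ≤ Y (P true j) := h.swap.X_le hij hj

/-- the upper ends of the short separators lie between the horizontal lines `1` and `2` -/
theorem U_strip (h : FD H X Y E F a b xc yc P U C D M) :
    ∀ c, 3 ≤ c → c + 2 ≤ M → Y (P true 2) < Y (U false c) ∧ Y (U false c) < Y (P true 4) := by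
  have hM := h.hM
  intro c hc
  induction c, hc using Nat.le_induction with
  | base =>
    intro _
    have e3 : Y (D true 1) = Y (P true 3) := h.Y_D (r := 1) (by omega)
    have y1 := h.Y_lt (i := 2) (j := 3) (by omega) (by omega)
    have y2 := h.Y_lt (i := 3) (j := 4) (by omega) (by omega)
    have x1 := h.X_lt (i := 0) (j := 1) (by omega) (by omega)
    have x2 := h.X_lt (i := 1) (j := 2) (by omega) (by omega)
    have x3 := h.X_lt (i := 2) (j := 6) (by omega) (by omega)
    have e4 : X (U false 3) = X (P false 6) := h.X_U (c := 3) (by omega)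
    have e5 := h.X_D1
    have hr := h.rect_long (c := 0) (c' := 1) (r := 1) (r' := 2) (by omega) (by omega) (by omega)
      (by omega) (lg_small (by omega)) (lg_small (by omega)) (lg_small (by omega))
      (lg_small (by omega))
    simp only [Nat.mul_zero, Nat.mul_one] at hr
    rcases hr.through h.hd (h.ud false) (s := 0) le_rfl zero_le_one
      (by simp only [Bool.not_false]; linarith) (by simp only [Bool.not_false]; linarith)
      (by simp only [Bool.not_false]; linarith) (by simp only [Bool.not_false]; linarith) with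
      g | g | g
    · linarith [g.2.1]
    · simp only [Bool.not_false] at g
      linarith
    · simp only [Bool.not_false] at g
      constructor <;> linarith
  | succ c hc ih =>
    intro hc2
    obtain ⟨i1, i2⟩ := ih (by omega)
    have e1 := h.X_U (c := c) (by omega)
    have e2 := h.X_U (c := c + 1) (by omega)
    have x1 := h.X_lt (i := 0) (j := 2 * c) (by omega) (by omega)
    have x2 := h.X_lt (i := 2 * c) (j := 2 * (M - 1)) (by omega) (by omega)
    have x3 := h.X_lt (i := 2 * c) (j := 2 * (c + 1)) (by omega) (by omega)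
    have hr := h.rect_long (c := 0) (c' := M - 1) (r := 1) (r' := 2) (by omega) (by omega)
      (by omega) (by omega) (lg_small (by omega)) h.lg_last (lg_small (by omega))
      (lg_small (by omega))
    simp only [Nat.mul_zero, Nat.mul_one] at hr
    rcases hr.through h.hd (h.uw false c hc (by omega)) (s := 0) le_rfl zero_le_one
      (by linarith) (by linarith) (by linarith) (by linarith) with g | g | g
    · exact ⟨g.2.2.1, g.2.2.2⟩
    · linarith
    · rw [g]
      exact ⟨i1, i2⟩

theorem U_high (h : FD H X Y E F a b xc yc P U C D M) (hc : c < M) :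
    Y (P true 2) < Y (U false c) := by
  have hM := h.hM
  by_cases hl : Lg M c
  · have e1 : Y (U true 1) = Y (P true 2) := h.Y_U (r := 1) (by omega)
    rw [← e1]
    exact (h.cross hc (by omega) hl (lg_small (by omega))).2
  · unfold Lg at hl
    push Not at hl
    exact (h.U_strip c hl.1 (by omega)).1

theorem U_far (h : FD H X Y E F a b xc yc P U C D M) (hj : j < 2 * M - 1) (hr : r < M)
    (lr : Lg M r) : X (P false j) < X (U true r) := by
  have hM := h.hM
  have e1 := h.X_U (c := M - 1) (by omega)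
  have e2 := (h.cross (c := M - 1) (r := r) (by omega) hr h.lg_last lr).1
  have e3 := h.X_le (i := j) (j := 2 * (M - 1)) (by omega) (by omega)
  linarith

/-- the rectangles of the first row -/
theorem rect0 (h : FD H X Y E F a b xc yc P U C D M) (hc : c + 1 < M) :
    Rect H X Y (X (P false (2 * c))) (X (P false (2 * c + 2))) (Y (P true 0)) (Y (P true 2)) := by
  have hM := h.hM
  have := h.rect_mk (c := c) (c' := c + 1) (r := 0) (r' := 1) (by omega) hc (by omega) (by omega)
    (h.U_NE false (by omega)) (h.U_NE false (by omega)) (h.U_NE true (by omega))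
    (h.U_NE true (by omega)) (h.X_lt (by omega) (by omega)) (h.Y_lt (by omega) (by omega))
    (h.U_high (by omega)) (h.U_high hc) (h.U_far (by omega) (by omega) (lg_small (by omega)))
    (h.U_far (by omega) (by omega) (lg_small (by omega)))
  exact this

/-- the entries of the columns -/
theorem Y_row (h : FD H X Y E F a b xc yc P U C D M) :
    ∀ c, c < M → Y (D false c) = Y (P true 1) := by
  have hM := h.hM
  intro c
  induction c with
  | zero =>
    intro _
    rw [h.d0 false]
    exact h.Y_D (r := 0) (by omega)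
  | succ c ih =>
    intro hc
    have ih' := ih (by omega)
    have e1 := h.X_D (c := c) (by omega)
    have e2 := h.X_D (c := c + 1) (by omega)
    have x1 := h.X_lt (i := 2 * c) (j := 2 * c + 1) (by omega) (by omega)
    have x2 := h.X_lt (i := 2 * c + 1) (j := 2 * c + 2) (by omega) (by omega)
    have x3 := h.X_lt (i := 2 * c + 2) (j := 2 * (c + 1) + 1) (by omega) (by omega)
    have y1 := h.Y_lt (i := 0) (j := 1) (by omega) (by omega)
    have y2 := h.Y_lt (i := 1) (j := 2) (by omega) (by omega)
    rcases (h.rect0 hc).through h.hd (h.dd false c hc) (s := 0) le_rfl zero_le_one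
      (by linarith) (by linarith) (by linarith) (by linarith) with g | g | g
    · linarith [g.2.1]
    · linarith
    · rw [g]
      exact ih'

theorem X_col (h : FD H X Y E F a b xc yc P U C D M) :
    ∀ r, r < M → X (D true r) = X (P false 1) := h.swap.Y_row

end FD

end Pool.Agent.Helper74.DG3
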