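import Pool.Agent.Helper58.DG3.Base
import Pool.Agent.Helper74.DG3.Frame

/-!
# Slope 1: the frame of a drawn grid
-/

set_option autoImplicit false

namespace Pool.Agent.Helper58.DG3

open Pool.Agent.Helper18.RAC
open Pool.Agent.Helper74.DG3 (FD)

variable {V : Type*} {H : SimpleGraph V} {X Y : V → ℝ} {E F a b : ℝ} {κ : GX → V} {π : Par}

theorem GN.D'_ok {π : Par} (σ : Bool) {c : ℕ} (hM : 0 < π.M) (hc : c < π.M) :
    (GN.D' σ c 0).ok π := by
  cases σ
  · exact ⟨hc, hM, Or.inr rfl⟩
  · exact ⟨hM, hc, Or.inl rfl⟩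

theorem GN.D'_nt (σ : Bool) (c r : ℕ) : (GN.D' σ c r).nt := by
  cases σ <;> trivial

/-- the frame of the grid -/
theorem GDraw.fd (h : GDraw H X Y E F a b κ π) :
    FD H X Y E F a b (fun σ => κ (.X σ)) (fun σ => κ (.Y σ)) (fun σ j => κ (.v (.P σ j)))
      (fun σ c => κ (.v (.U σ c))) (fun σ j ε => κ (.v (.C σ j ε)))
      (fun σ c => κ (.v (.D' σ c 0))) π.M := by
  have hM8 := h.hg.hM
  have hM : 0 < π.M := by omega
  have okD := fun (σ : Bool) (c : ℕ) (hc : c < π.M) => GN.D'_ok (π := π) σ hM hc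
  exact
  { hM := by omega
    hd := h.hd
    hk := h.hk
    hs := h.hs
    hU := h.hU
    hP0 := h.hP0
    hC0 := h.hC0
    hP1 := h.hP1
    hC1 := h.hC1
    yp := fun σ j hj => h.hg.adj (.yp σ j) hj trivial
    xu := fun σ c hc hl => h.hg.adj (.xu σ c) ⟨hc, hl⟩ trivial
    xp := fun σ => h.hg.adj (.xp σ) trivial trivial
    up := fun σ c hc => h.hg.adj (.up σ c) hc trivial
    pd := fun σ c hc => h.hg.adj (.pd σ c) hc trivial
    dd := fun σ c hc => h.hg.adj (.dd σ c) hc trivial
    d0 := fun σ => by cases σ <;> rfl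
    pp := fun σ j hj => h.hg.adj (.pp σ j) hj trivial
    pc := fun σ j ε hj => h.hg.adj (.pc σ j ε) hj trivial
    pc' := fun σ j ε hj => h.hg.adj (.pc' σ j ε) hj trivial
    cc := fun σ j hj => h.hg.adj (.cc σ j) hj trivial
    dr := fun σ ε => h.hg.adj (.dr σ ε) trivial trivial
    ud := fun σ => by
      have h1 := h.hg.adj (.uw σ 3) ⟨le_rfl, by omega⟩ trivial
      cases σ <;> exact h1
    uw := fun σ c h1 h2 => by
      have h3 := h.hg.adj (.uw σ (c + 1)) ⟨by omega, by omega⟩ trivial
      simp only [GE.ends] at h3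
      rw [if_neg (show ¬ c + 1 = 3 by omega), Nat.add_sub_cancel] at h3
      exact h3
    injP := fun σ i j hi hj he => by
      have := h.hg.inj (.P σ i) (.P σ j) hi hj trivial trivial he
      injection this
    nCP := fun σ j ε m hj hm he => by
      have := h.hg.inj (.C σ j ε) (.P σ m) hj hm trivial trivial he
      cases this
    nDP := fun σ c τ j hc hj he => by
      have := h.hg.inj (.D' σ c 0) (.P τ j) (okD σ c hc) hj (GN.D'_nt σ c 0) trivial he
      cases σ <;> cases this
    nUP := fun σ c τ j hc hj he => by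
      have := h.hg.inj (.U σ c) (.P τ j) hc hj trivial trivial he
      cases this
    nDU := fun σ c τ j hc hj he => by
      have := h.hg.inj (.D' σ c 0) (.U τ j) (okD σ c hc) hj (GN.D'_nt σ c 0) trivial he
      cases σ <;> cases this
    nUU := fun c r hc hr he => by
      have := h.hg.inj (.U false c) (.U true r) hc hr trivial trivial he
      cases this
    injU := fun σ i j hi hj he => by
      have := h.hg.inj (.U σ i) (.U σ j) hi hj trivial trivial he
      injection this
    nUX := fun σ c τ hc => h.hg.nX (.U σ c) τ hc trivial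
    nUY := fun σ c τ hc => h.hg.nY (.U σ c) τ hc trivial
    nDX := fun σ c τ hc => h.hg.nX (.D' σ c 0) τ (okD σ c hc) (GN.D'_nt σ c 0)
    nDY := fun σ c τ hc => h.hg.nY (.D' σ c 0) τ (okD σ c hc) (GN.D'_nt σ c 0) }

end Pool.Agent.Helper58.DG3
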