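import Pool.Agent.Helper49.DG.Chain

/-!
# Slope 1: the order of the vertices `P j` when only some of them have an anchor
-/

set_option autoImplicit false

namespace Pool.Agent.Helper74.DG3

open Pool.Agent.Helper18.RAC
open Pool.Agent.Helper82.DG (CN Lf)

variable {V : Type*}

/-- the vertices `P j` with `J j` (those which are known to have a vertical edge `P j P' j` on the
other side) are ordered by their abscissas -/
theorem chain_part {H : SimpleGraph V} {X Y : V → ℝ} {E F h e : ℝ} (hd : ADraw H X Y E F)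
    {w u : V} {n : ℕ} {P P' : ℕ → V} {C : ℕ → Bool → V} {J : ℕ → Prop}
    (hw : X w = 0) (hw' : Y w = h) (hu : X u = e) (hu' : Y u = 0)
    (hP : ∀ j < n, 0 < X (P j) ∧ X (P j) < e ∧ 0 < Y (P j) ∧ Y (P j) < h)
    (hC : ∀ j ε, j + 1 < n → 0 < X (C j ε) ∧ 0 < Y (C j ε) ∧ Y (C j ε) < h)
    (hP' : ∀ j < n, J j → X (P' j) = X (P j) ∧ Y (P' j) < 0)
    (wP : ∀ j < n, H.Adj w (P j)) (PP' : ∀ j < n, J j → H.Adj (P j) (P' j))
    (pp : ∀ j, j + 1 < n → H.Adj (P j) (P (j + 1)))
    (pc : ∀ j ε, j + 1 < n → H.Adj (P j) (C j ε))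
    (pc' : ∀ j ε, j + 1 < n → H.Adj (P (j + 1)) (C j ε))
    (cc : ∀ j, j + 1 < n → H.Adj (C j false) (C j true))
    (uP : H.Adj u (P (n - 1))) (hJ : J (n - 1))
    (inj : ∀ i < n, ∀ j < n, P i = P j → i = j)
    (hne : ∀ j ε m, j + 1 < n → m < n → C j ε ≠ P m) :
    ∀ i j, i < j → j < n → J i → J j → X (P i) < X (P j) := by
  have hcn : ∀ j, j < n → J j → CN H X Y h w (P j) (P' j) := fun j hj hJj =>
    { Xw := hw
      Yw := hw'
      X_pos := (hP j hj).1
      Y_pos := (hP j hj).2.2.1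
      Y_lt := (hP j hj).2.2.2
      Xp' := (hP' j hj hJj).1
      Yp' := (hP' j hj hJj).2
      wp := wP j hj
      pp' := PP' j hj hJj }
  have hneP : ∀ i < n, ∀ j < n, i ≠ j → P i ≠ P j := fun i hi j hj hij h1 => hij (inj i hi j hj h1)
  have h4 : ∀ m < n, J m → ∀ j < n, J j → j ≠ m →
      (Lf X Y h (P m) (P j) ↔ X (P j) < X (P m)) ∧ X (P j) ≠ X (P m) := fun m hm hJm j hj hJj hjm =>
    (hcn m hm hJm).lf_iff hd (hcn j hj hJj) (hneP j hj m hm hjm)
  have h3 : ∀ m < n, J m → ∀ j, j + 1 < n → m ≠ j → m ≠ j + 1 →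
      (Lf X Y h (P m) (P j) → Lf X Y h (P m) (P (j + 1))) := by
    intro m hm hJm j hj hmj hmj'
    have hj' : j < n := by omega
    have hPj : 0 < X (P j) ∧ 0 < Y (P j) := ⟨(hP j hj').1, (hP j hj').2.2.1⟩
    have hPj' : 0 < X (P (j + 1)) ∧ 0 < Y (P (j + 1)) := ⟨(hP (j + 1) hj).1, (hP (j + 1) hj).2.2.1⟩
    have hCf : 0 < X (C j false) ∧ 0 < Y (C j false) := ⟨(hC j false hj).1, (hC j false hj).2.1⟩
    have hCt : 0 < X (C j true) ∧ 0 < Y (C j true) := ⟨(hC j true hj).1, (hC j true hj).2.1⟩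
    exact (hcn m hm hJm).K4 hd (pp j hj) (pc j false hj) (pc j true hj) (pc' j false hj)
        (pc' j true hj) (cc j hj) (hneP j hj' m hm hmj.symm) (hneP (j + 1) hj m hm hmj'.symm)
        (hne j false m hj hm) (hne j true m hj hm) hPj hPj' hCf hCt
  have h5 : ∀ m, m + 1 < n → J m → X (P m) < X (P (n - 1)) := by
    intro m hm hJm
    have hm' : m < n := by omega
    have hn' : n - 1 < n := by omega
    have h6 := h4 m hm' hJm (n - 1) hn' hJ (by omega)
    by_contra h7
    push Not at h7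
    have h8 : Lf X Y h (P m) (P (n - 1)) := h6.1.2 (lt_of_le_of_ne h7 h6.2)
    have hr : ¬ Lf X Y h (P m) u := fun h9 => by
      have := h9.1
      rw [hu] at this
      linarith [(hP m hm').2.1]
    have hup : u ≠ P m := by
      rintro rfl
      have := (hP m hm').2.2.1
      linarith
    have hYP := (hP (n - 1) hn').2.2.1
    have hYm := (hP m hm').2.2.1
    rcases (hcn m hm' hJm).cross hd uP.symm (hneP (n - 1) hn' m hm' (by omega)) hup
      (hP (n - 1) hn').1 hYP (by rw [hu]; linarith [(hP m hm').1, (hP m hm').2.1])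
      hu'.ge h8 hr with ⟨-, a2, -⟩ | ⟨-, -, a3, -⟩
    · rw [hu'] at a2; linarith
    · rw [hu'] at a3; linarith
  -- everything after `m` is on the right of the chain of `P m`
  have h6 : ∀ m < n, J m → ∀ j, m < j → j < n → ¬ Lf X Y h (P m) (P j) := by
    intro m hm hJm j hmj hj hl
    have key : ∀ t, j + t < n → Lf X Y h (P m) (P (j + t)) := by
      intro t
      induction t with
      | zero => intro _; exact hl
      | succ t ih =>
        intro ht
        exact h3 m hm hJm (j + t) ht (by omega) (by omega) (ih (by omega))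
    have h7 := key (n - 1 - j) (by omega)
    have h8 : j + (n - 1 - j) = n - 1 := by omega
    rw [h8] at h7
    have h9 := h5 m (by omega) hJm
    have h10 := h7.1
    linarith
  intro i j hij hj hJi hJj
  have h7 := h4 i (by omega) hJi j hj hJj (by omega)
  have h8 := h6 i (by omega) hJi j hij hj
  rcases lt_trichotomy (X (P i)) (X (P j)) with h9 | h9 | h9
  · exact h9
  · exact absurd h9.symm h7.2
  · exact absurd (h7.1.2 h9) h8

end Pool.Agent.Helper74.DG3
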